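import Pool.Agent.Lib_helper60.PQ.Defs
import Pool.Agent.Lib_helper73.PQ.PI
import Pool.Agent.Lib_helper87.CPQ.BL

/-!
# Project PQ (MP_05dcdc_nt), block BIL: the bilinear sum over the hyperbola
-/

set_option autoImplicit false

namespace Pool.Agent.PQ

open Finset Filter Topology

theorem BIL_mem {x p : ℕ} : p ∈ prm x ↔ p ≤ x ∧ p.Prime := by
  unfold prm
  rw [Finset.mem_filter, Finset.mem_Icc]
  exact ⟨fun h => ⟨h.1.2, h.2⟩, fun h => ⟨⟨h.2.one_lt.le, h.1⟩, h.2⟩⟩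

/-- the pairs with a small first coordinate -/
theorem BIL_small (ε : ℝ) (hε : 0 < ε) : ∃ X₀ : ℕ, ∀ X : ℕ, X₀ ≤ X →
    ∑ p ∈ (prm X).filter (fun p : ℕ => (p : ℝ) ≤ Real.log X ^ 64), ((prm (X / p)).card : ℝ) ≤
      ε * (X * Real.log (Real.log X) / Real.log X) := by
  obtain ⟨C₁, hC₁, h₁⟩ := pi_le
  obtain ⟨C₂, hC₂, h₂⟩ := inv_le
  have hL : Tendsto (fun X : ℕ => Real.log (X : ℝ)) atTop atTop :=
    Real.tendsto_log_atTop.comp tendsto_natCast_atTop_atTop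
  have hLL : Tendsto (fun X : ℕ => Real.log (Real.log (X : ℝ))) atTop atTop :=
    Real.tendsto_log_atTop.comp hL
  set δ := ε / (4 * C₁) with hδ
  have hδ0 : 0 < δ := by positivity
  have e1 : ∀ᶠ y : ℝ in atTop, Real.log y ≤ δ * y := by
    have h := Real.isLittleO_log_id_atTop.def hδ0
    filter_upwards [h, eventually_ge_atTop 1] with y hy hy1
    rw [id, Real.norm_of_nonneg (Real.log_nonneg hy1), Real.norm_of_nonneg (by linarith)] at hy
    exact hy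
  have e2 : ∀ᶠ y : ℝ in atTop, Real.log 64 + C₂ ≤ δ * y := by
    filter_upwards [eventually_ge_atTop ((Real.log 64 + C₂) / δ)] with y hy
    rw [div_le_iff₀ hδ0] at hy
    linarith
  have e3 : ∀ᶠ x : ℝ in atTop, Real.log x ^ 128 ≤ (1 / 4) * x := by
    have h := (Real.isLittleO_pow_log_id_atTop (n := 128)).def (show (0 : ℝ) < 1 / 4 by norm_num)
    filter_upwards [h, eventually_ge_atTop 1] with y hy hy1
    rw [id, Real.norm_of_nonneg (pow_nonneg (Real.log_nonneg hy1) _),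
      Real.norm_of_nonneg (by linarith)] at hy
    exact hy
  have hall : ∀ᶠ X : ℕ in atTop, 3 ≤ Real.log (X : ℝ) ∧ 1 ≤ Real.log (Real.log (X : ℝ)) ∧
      Real.log (Real.log (Real.log (X : ℝ))) ≤ δ * Real.log (Real.log (X : ℝ)) ∧
      Real.log 64 + C₂ ≤ δ * Real.log (Real.log (X : ℝ)) ∧
      Real.log (X : ℝ) ^ 128 ≤ (1 / 4) * X ∧ 3 ≤ X := by
    filter_upwards [hL.eventually_ge_atTop 3, hLL.eventually_ge_atTop 1, hLL.eventually e1,
      hLL.eventually e2, tendsto_natCast_atTop_atTop.eventually e3, eventually_ge_atTop 3]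
      with X a b c d e f
    exact ⟨a, b, c, d, e, f⟩
  rw [eventually_atTop] at hall
  obtain ⟨X₀, hX₀⟩ := hall
  refine ⟨X₀, fun X hX => ?_⟩
  obtain ⟨hL3, hLL1, hc, hd, he, hX3⟩ := hX₀ X hX
  set L := Real.log (X : ℝ) with hLdef
  have hXr : (3 : ℝ) ≤ X := by exact_mod_cast hX3
  have hX0 : (0 : ℝ) < X := by linarith
  have hL0 : 0 < L := by linarith
  have hZ : 1 ≤ L ^ 64 := one_le_pow₀ (by linarith)
  have hsq : 2 * L ^ 64 ≤ Real.sqrt X := by
    refine Real.le_sqrt_of_sq_le ?_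
    have h3 : (2 * L ^ 64) ^ 2 = 4 * L ^ 128 := by ring
    rw [h3]
    linarith
  have hs2 : 2 ≤ Real.sqrt X := by linarith
  have hs0 : 0 < Real.sqrt X := by linarith
  have hterm : ∀ p ∈ (prm X).filter (fun p : ℕ => (p : ℝ) ≤ L ^ 64),
      ((prm (X / p)).card : ℝ) ≤ 2 * C₁ * X / L * (1 / p) := by
    intro p hp
    rw [Finset.mem_filter, BIL_mem] at hp
    obtain ⟨⟨hpX, hpp⟩, hpL⟩ := hp
    have hp0 : (0 : ℝ) < p := by exact_mod_cast hpp.pos
    have hfl : Real.sqrt X ≤ ((X / p : ℕ) : ℝ) := by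
      have h3 : (X : ℝ) / p - 1 ≤ ((X / p : ℕ) : ℝ) := by
        have h4 : (X : ℝ) < p * (((X / p : ℕ) : ℝ) + 1) := by
          have := Nat.lt_mul_div_succ X hpp.pos
          exact_mod_cast this
        rw [sub_le_iff_le_add, div_le_iff₀ hp0]
        linarith
      have h5 : 2 * Real.sqrt X ≤ (X : ℝ) / p := by
        rw [le_div_iff₀ hp0]
        calc 2 * Real.sqrt X * p ≤ 2 * Real.sqrt X * L ^ 64 := by gcongr
          _ = Real.sqrt X * (2 * L ^ 64) := by ring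
          _ ≤ Real.sqrt X * Real.sqrt X := mul_le_mul_of_nonneg_left hsq hs0.le
          _ = X := Real.mul_self_sqrt hX0.le
      linarith
    have h2' : 2 ≤ X / p := by
      have : (2 : ℝ) ≤ ((X / p : ℕ) : ℝ) := by linarith
      exact_mod_cast this
    refine (h₁ (X / p) h2').trans ?_
    have hlog : L / 2 ≤ Real.log ((X / p : ℕ) : ℝ) := by
      have := Real.log_le_log hs0 hfl
      rw [Real.log_sqrt hX0.le] at this
      exact this
    have hdiv : ((X / p : ℕ) : ℝ) ≤ X / p := Nat.cast_div_le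
    calc C₁ * ((X / p : ℕ) : ℝ) / Real.log ((X / p : ℕ) : ℝ) ≤ C₁ * (X / p) / (L / 2) := by
          refine div_le_div₀ (by positivity) ?_ (by positivity) hlog
          exact mul_le_mul_of_nonneg_left hdiv hC₁.le
      _ = 2 * C₁ * X / L * (1 / p) := by field_simp
  refine (Finset.sum_le_sum hterm).trans ?_
  rw [← Finset.mul_sum]
  have hZ3 : 3 ≤ ⌊L ^ 64⌋₊ := by
    refine Nat.le_floor ?_
    have : (3 : ℝ) ^ 64 ≤ L ^ 64 := pow_le_pow_left₀ (by norm_num) hL3 64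
    have h3 : (3 : ℝ) ≤ 3 ^ 64 := by norm_num
    push_cast
    linarith
  have hsub : (prm X).filter (fun p : ℕ => (p : ℝ) ≤ L ^ 64) ⊆ prm ⌊L ^ 64⌋₊ := by
    intro p hp
    rw [Finset.mem_filter, BIL_mem] at hp
    rw [BIL_mem]
    exact ⟨Nat.le_floor hp.2, hp.1.2⟩
  have hsum : ∑ p ∈ (prm X).filter (fun p : ℕ => (p : ℝ) ≤ L ^ 64), (1 : ℝ) / p ≤
      Real.log (64 * Real.log L) + C₂ := by
    refine (Finset.sum_le_sum_of_subset_of_nonneg hsub fun _ _ _ => by positivity).trans ?_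
    refine (h₂ _ hZ3).trans ?_
    have hZr : (3 : ℝ) ≤ (⌊L ^ 64⌋₊ : ℝ) := by exact_mod_cast hZ3
    have h3 : Real.log (⌊L ^ 64⌋₊ : ℝ) ≤ 64 * Real.log L := by
      have h4 := Real.log_le_log (by linarith) (Nat.floor_le (show 0 ≤ L ^ 64 by positivity))
      rw [Real.log_pow] at h4
      exact_mod_cast h4
    have h5 : 0 < Real.log (⌊L ^ 64⌋₊ : ℝ) := Real.log_pos (by linarith)
    have := Real.log_le_log h5 h3
    linarith
  have hLL0 : 0 < Real.log L := by linarith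
  calc 2 * C₁ * X / L * ∑ p ∈ (prm X).filter (fun p : ℕ => (p : ℝ) ≤ L ^ 64), (1 : ℝ) / p
      ≤ 2 * C₁ * X / L * (Real.log (64 * Real.log L) + C₂) :=
        mul_le_mul_of_nonneg_left hsum (by positivity)
    _ ≤ 2 * C₁ * X / L * (2 * (δ * Real.log L)) := by
        refine mul_le_mul_of_nonneg_left ?_ (by positivity)
        rw [Real.log_mul (by norm_num) hLL0.ne']
        linarith
    _ = ε * (X * Real.log L / L) := by
        rw [hδ]; field_simp; ring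

theorem BIL_swap (X : ℕ) (g : ℕ → ℝ) :
    ∑ p ∈ prm X, ∑ q ∈ prm (X / p), g q = ∑ p ∈ prm X, ∑ _q ∈ prm (X / p), g p := by
  rw [Finset.sum_comm' (t' := prm X) (s' := fun q => prm (X / q))]
  intro p q
  rw [BIL_mem, BIL_mem, BIL_mem, BIL_mem]
  constructor
  · rintro ⟨⟨_, hp⟩, hq, hqp⟩
    have h1 : q * p ≤ X := (Nat.le_div_iff_mul_le hp.pos).1 hq
    refine ⟨⟨(Nat.le_div_iff_mul_le hqp.pos).2 (by rwa [mul_comm]), hp⟩, ?_, hqp⟩
    exact (Nat.le_mul_of_pos_right q hp.pos).trans h1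
  · rintro ⟨⟨hp, hpp⟩, _, hqp⟩
    have h1 : p * q ≤ X := (Nat.le_div_iff_mul_le hqp.pos).1 hp
    refine ⟨⟨(Nat.le_mul_of_pos_right p hqp.pos).trans h1, hpp⟩, ?_, hqp⟩
    exact (Nat.le_div_iff_mul_le hpp.pos).2 (by rwa [mul_comm])

theorem bil (ε : ℝ) (hε : 0 < ε) : ∃ X₀ : ℕ, ∀ X : ℕ, X₀ ≤ X → ∀ (χ : (p : ℕ) → DirichletCharacter ℂ p) (α β : ℕ → ℂ),
    (∀ n, ‖α n‖ ≤ 1) → (∀ n, ‖β n‖ ≤ 1) → (∀ p, p.Prime → α p ≠ 0 → χ p ≠ 1) →
    ‖BS X χ α β‖ ≤ ε * (X * Real.log (Real.log X) / Real.log X) := by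
  classical
  obtain ⟨X₁, hX₁⟩ := BIL_small (ε / 4) (by positivity)
  have hL : Tendsto (fun X : ℕ => Real.log (X : ℝ)) atTop atTop :=
    Real.tendsto_log_atTop.comp tendsto_natCast_atTop_atTop
  have hLL : Tendsto (fun X : ℕ => Real.log (Real.log (X : ℝ))) atTop atTop :=
    Real.tendsto_log_atTop.comp hL
  obtain ⟨X₂, hX₂⟩ := eventually_atTop.1 ((hL.eventually_ge_atTop (600 / ε)).and
    ((hL.eventually_ge_atTop 1).and (hLL.eventually_ge_atTop 1)))
  refine ⟨max (max X₁ X₂) 3, fun X hX χ α β hα hβ hχ => ?_⟩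
  have hX1 : X₁ ≤ X := (le_max_left _ _).trans ((le_max_left _ _).trans hX)
  have hX2 : X₂ ≤ X := (le_max_right _ _).trans ((le_max_left _ _).trans hX)
  have hX3 : 3 ≤ X := (le_max_right _ _).trans hX
  obtain ⟨hLe, hL1, hLL1⟩ := hX₂ X hX2
  have hsm := hX₁ X hX1
  have hX3r : (3 : ℝ) ≤ X := by exact_mod_cast hX3
  have hmain := Pool.Agent.CPQ87.bl_main hX3r χ α β hα hβ
    (fun p hp hap => Pool.Agent.CPQ87.pw_prim hp (χ p) (hχ p hp hap))
  set L := Real.log (X : ℝ) with hLdef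
  have hL0 : 0 < L := by linarith
  -- splitting
  have hsplit : BS X χ α β =
      ∑ x ∈ Pool.Agent.CPQ87.blS X, α x.1 * β x.2 * χ x.1 (x.2 : ZMod x.1) +
      ∑ p ∈ prm X, ∑ q ∈ prm (X / p), (if L ^ 64 < (p : ℝ) ∧ L ^ 64 < (q : ℝ) then 0 else
        α p * β q * χ p (q : ZMod p)) := by
    have h1 : ∑ x ∈ Pool.Agent.CPQ87.blS X, α x.1 * β x.2 * χ x.1 (x.2 : ZMod x.1) =
        ∑ p ∈ prm X, ∑ q ∈ prm (X / p), (if L ^ 64 < (p : ℝ) ∧ L ^ 64 < (q : ℝ) then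
          α p * β q * χ p (q : ZMod p) else 0) := by
      rw [Finset.sum_sigma', ← Finset.sum_filter]
      refine Finset.sum_nbij' (fun x => ⟨x.1, x.2⟩) (fun x => (x.1, x.2)) ?_ ?_ ?_ ?_ ?_
      · rintro ⟨p, q⟩ hx
        unfold Pool.Agent.CPQ87.blS at hx
        rw [Finset.mem_filter, Finset.mem_product] at hx
        obtain ⟨⟨hp, hq⟩, hpp, hqp, hpL, hqL, hle⟩ := hx
        simp only at hp hq hpp hqp hpL hqL hle
        rw [Nat.floor_natCast, Finset.mem_Icc] at hp hq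
        rw [Finset.mem_filter, Finset.mem_sigma, BIL_mem, BIL_mem]
        have hle' : p * q ≤ X := by exact_mod_cast hle
        exact ⟨⟨⟨hp.2, hpp⟩, (Nat.le_div_iff_mul_le hpp.pos).2 (by rwa [mul_comm]), hqp⟩, hpL, hqL⟩
      · rintro ⟨p, q⟩ hx
        rw [Finset.mem_filter, Finset.mem_sigma, BIL_mem, BIL_mem] at hx
        obtain ⟨⟨⟨hp, hpp⟩, hq, hqp⟩, hpL, hqL⟩ := hx
        simp only at hp hpp hq hqp hpL hqL
        have hle : q * p ≤ X := (Nat.le_div_iff_mul_le hpp.pos).1 hq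
        unfold Pool.Agent.CPQ87.blS
        rw [Finset.mem_filter, Finset.mem_product, Nat.floor_natCast]
        refine ⟨⟨Finset.mem_Icc.2 ⟨hpp.one_lt.le, hp⟩, Finset.mem_Icc.2 ⟨hqp.one_lt.le,
          (Nat.le_mul_of_pos_right q hpp.pos).trans hle⟩⟩, hpp, hqp, hpL, hqL, ?_⟩
        have : p * q ≤ X := by rwa [mul_comm]
        simp only
        exact_mod_cast this
      · rintro ⟨p, q⟩ _; rfl
      · rintro ⟨p, q⟩ _; rfl
      · rintro ⟨p, q⟩ _; rfl
    rw [h1, ← Finset.sum_add_distrib, BS]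
    refine Finset.sum_congr rfl fun p _ => ?_
    rw [← Finset.sum_add_distrib]
    refine Finset.sum_congr rfl fun q _ => ?_
    split_ifs <;> ring
  -- the rest
  have hrest : ‖∑ p ∈ prm X, ∑ q ∈ prm (X / p), (if L ^ 64 < (p : ℝ) ∧ L ^ 64 < (q : ℝ) then 0 else
        α p * β q * χ p (q : ZMod p))‖ ≤
      2 * ∑ p ∈ (prm X).filter (fun p : ℕ => (p : ℝ) ≤ L ^ 64), ((prm (X / p)).card : ℝ) := by
    have h2 : ‖∑ p ∈ prm X, ∑ q ∈ prm (X / p), (if L ^ 64 < (p : ℝ) ∧ L ^ 64 < (q : ℝ) then 0 else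
        α p * β q * χ p (q : ZMod p))‖ ≤
        ∑ p ∈ prm X, ∑ q ∈ prm (X / p), ((if (p : ℝ) ≤ L ^ 64 then (1 : ℝ) else 0) +
          (if (q : ℝ) ≤ L ^ 64 then (1 : ℝ) else 0)) := by
      refine (norm_sum_le _ _).trans (Finset.sum_le_sum fun p _ => ?_)
      refine (norm_sum_le _ _).trans (Finset.sum_le_sum fun q _ => ?_)
      have hone : ‖α p * β q * χ p (q : ZMod p)‖ ≤ 1 := by
        rw [norm_mul, norm_mul]
        exact mul_le_one₀ (mul_le_one₀ (hα p) (norm_nonneg _) (hβ q)) (norm_nonneg _)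
          (DirichletCharacter.norm_le_one _ _)
      by_cases hp : (p : ℝ) ≤ L ^ 64
      · rw [if_neg (fun h => absurd h.1 (not_lt.2 hp)), if_pos hp]
        have : (0 : ℝ) ≤ (if (q : ℝ) ≤ L ^ 64 then (1 : ℝ) else 0) := by split_ifs <;> norm_num
        linarith
      · by_cases hq : (q : ℝ) ≤ L ^ 64
        · rw [if_neg (fun h => absurd h.2 (not_lt.2 hq)), if_neg hp, if_pos hq]
          linarith
        · rw [if_pos ⟨not_le.1 hp, not_le.1 hq⟩, if_neg hp, if_neg hq]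
          simp
    refine h2.trans (le_of_eq ?_)
    have h3 : ∑ p ∈ prm X, ∑ q ∈ prm (X / p), ((if (p : ℝ) ≤ L ^ 64 then (1 : ℝ) else 0) +
          (if (q : ℝ) ≤ L ^ 64 then (1 : ℝ) else 0)) =
        ∑ p ∈ prm X, ∑ q ∈ prm (X / p), (if (p : ℝ) ≤ L ^ 64 then (1 : ℝ) else 0) +
        ∑ p ∈ prm X, ∑ q ∈ prm (X / p), (if (q : ℝ) ≤ L ^ 64 then (1 : ℝ) else 0) := by
      rw [← Finset.sum_add_distrib]
      exact Finset.sum_congr rfl fun p _ => Finset.sum_add_distrib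
    rw [h3, BIL_swap X (fun q : ℕ => if (q : ℝ) ≤ L ^ 64 then (1 : ℝ) else 0)]
    have h4 : ∑ p ∈ prm X, ∑ _q ∈ prm (X / p), (if (p : ℝ) ≤ L ^ 64 then (1 : ℝ) else 0) =
        ∑ p ∈ (prm X).filter (fun p : ℕ => (p : ℝ) ≤ L ^ 64), ((prm (X / p)).card : ℝ) := by
      rw [Finset.sum_filter]
      refine Finset.sum_congr rfl fun p _ => ?_
      rw [Finset.sum_const, nsmul_eq_mul]
      split_ifs <;> simp
    rw [h4]; ring
  rw [hsplit]
  refine (norm_add_le _ _).trans ?_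
  have h5 : 300 * (X : ℝ) / L ^ 2 ≤ (ε / 2) * (X * Real.log L / L) := by
    have h6 : 600 ≤ ε * L := by
      rw [div_le_iff₀ hε] at hLe
      linarith
    have h7 : 300 * (X : ℝ) / L ^ 2 = (300 / L) * (X / L) := by field_simp
    have h8 : (ε / 2) * (X * Real.log L / L) = ((ε / 2) * Real.log L) * (X / L) := by ring
    rw [h7, h8]
    refine mul_le_mul_of_nonneg_right ?_ (by positivity)
    rw [div_le_iff₀ hL0]
    nlinarith
  linarith

end Pool.Agent.PQ
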